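import Pool.Agent.MP_db5b97_nt.H85.Spec

/-! Inert extensions. -/

namespace Pool.Agent.MP_db5b97_nt.H76

open NumberField IsDedekindDomain Polynomial Pool.Agent.MP_db5b97_nt.H85

theorem lmm_map {R S R' S' : Type} [CommRing R] [CommRing S] [CommRing R'] [CommRing S']
    [Algebra R S] [Algebra R' S'] (b : PowerBasis R S) (b' : PowerBasis R' S')
    (h : b'.dim = b.dim) (f : R →+* R') (φ : S →+* S')
    (hφ : ∀ r, φ (algebraMap R S r) = algebraMap R' S' (f r)) (hg : φ b.gen = b'.gen) (s : S) :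
    f (Algebra.norm R s) = Algebra.norm R' (φ s) ∧
      f (Algebra.trace R S s) = Algebra.trace R' S' (φ s) := by
  let c := b'.basis.reindex (finCongr h)
  have hc : ∀ i, φ (b.basis i) = c i := fun i => by
    simp [c, hg]
  have key : ∀ t i, c.repr (φ t) i = f (b.basis.repr t i) := fun t i => by
    have : φ t = ∑ j, f (b.basis.repr t j) • c j := by
      conv_lhs => rw [← b.basis.sum_repr t]
      simp only [map_sum, Algebra.smul_def, map_mul, hφ, hc]
    rw [this, c.repr_sum_self]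
  have hm : Algebra.leftMulMatrix c (φ s) = (Algebra.leftMulMatrix b.basis s).map f := by
    ext i j
    rw [Matrix.map_apply, Algebra.leftMulMatrix_eq_repr_mul, Algebra.leftMulMatrix_eq_repr_mul,
      ← hc, ← map_mul, key]
  rw [Algebra.norm_eq_matrix_det b.basis, Algebra.norm_eq_matrix_det c,
    Algebra.trace_eq_matrix_trace b.basis, Algebra.trace_eq_matrix_trace c, hm]
  exact ⟨f.map_det _, AddMonoidHom.map_trace f _⟩

section Norm

variable {R S : Type} [CommRing R] [CommRing S] [Algebra R S] (b : PowerBasis R S)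
include b

theorem norm_congr {I : Ideal R} {e : R} (he : e ∈ I) (s u : S) :
    Algebra.norm R (s + e • u) - Algebra.norm R s ∈ I := by
  rw [← Ideal.Quotient.eq, Algebra.norm_eq_matrix_det b.basis, Algebra.norm_eq_matrix_det b.basis,
    RingHom.map_det, RingHom.map_det]
  congr 1
  ext i j
  simp [Ideal.Quotient.eq_zero_iff_mem.2 he]

theorem norm_one_add (j : R) (t : S) :
    ∃ u, Algebra.norm R (1 + j • t) = 1 + Algebra.trace R S t * j + u * j ^ 2 := by
  rw [Algebra.norm_eq_matrix_det b.basis, Algebra.trace_eq_matrix_trace b.basis, map_add, map_one,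
    map_smul, Matrix.det_one_add_smul]
  exact ⟨_, rfl⟩

theorem norm_step {I v : Ideal R} [v.IsMaximal] {a : R} (ha : a ∉ v)
    (hn : ∃ s : S, Algebra.norm R s - a ∈ v) (ht : ∃ t : S, Algebra.trace R S t - 1 ∈ v)
    (h : ∃ s : S, Algebra.norm R s - a ∈ I) : ∃ s : S, Algebra.norm R s - a ∈ v * I := by
  obtain ⟨s, hs⟩ := h
  by_cases hI : I ≤ v
  · obtain ⟨t, ht⟩ := ht
    have hs' : Algebra.norm R s ∉ v := fun h => ha (by simpa using v.sub_mem h (hI hs))
    obtain ⟨c, d, hd, hc⟩ := Ideal.IsMaximal.exists_inv ‹_› hs'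
    obtain ⟨u, hu⟩ := norm_one_add b (-(c * (Algebra.norm R s - a))) t
    refine ⟨s * (1 + (-(c * (Algebra.norm R s - a))) • t), ?_⟩
    rw [map_mul, hu]
    have e : Algebra.norm R s * (1 + Algebra.trace R S t * -(c * (Algebra.norm R s - a)) +
        u * (-(c * (Algebra.norm R s - a))) ^ 2) - a =
        (d - (Algebra.trace R S t - 1) * (c * Algebra.norm R s) +
          (Algebra.norm R s - a) * (Algebra.norm R s * u * c ^ 2)) * (Algebra.norm R s - a) := by
      linear_combination (-(Algebra.norm R s - a)) * hc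
    rw [e]
    exact Ideal.mul_mem_mul (v.add_mem (v.sub_mem hd (v.mul_mem_right _ ht))
      (v.mul_mem_right _ (hI hs))) hs
  · obtain ⟨s', hs'⟩ := hn
    have hc : v ⊔ I = ⊤ := Ideal.IsMaximal.out.2 _ (left_lt_sup.2 hI)
    obtain ⟨f, hf, e, he, hfe⟩ := Submodule.mem_sup.1 ((Ideal.eq_top_iff_one _).1 hc)
    refine ⟨s + e • (s' - s), ?_⟩
    rw [Ideal.mul_eq_inf_of_coprime hc]
    constructor
    · have e1 : s + e • (s' - s) = s' + f • (s - s') := by
        rw [show e = 1 - f by rw [← hfe]; ring, sub_smul, one_smul, smul_sub, smul_sub]; abel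
      simpa [e1] using v.add_mem (norm_congr b hf s' (s - s')) hs'
    · simpa using I.add_mem (norm_congr b he s (s' - s)) hs

end Norm

theorem mk_aeval {R S : Type} [CommRing R] [CommRing S] [Algebra R S] (v : Ideal R) (J : Ideal S)
    (h : v ≤ J.comap (algebraMap R S)) (α : S) (p : R[X]) :
    Ideal.Quotient.mk J (aeval α p) = eval₂ (Ideal.quotientMap J (algebraMap R S) h)
      (Ideal.Quotient.mk J α) (p.map (Ideal.Quotient.mk v)) := by
  rw [eval₂_map, aeval_def, hom_eval₂]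
  rfl

theorem adj_top {k F : Type} [Field k] [Field F] [Algebra k F] [FiniteDimensional k F] {a : F}
    (htop : IntermediateField.adjoin k {a} = ⊤) : Algebra.adjoin k {a} = ⊤ := by
  rw [← IntermediateField.adjoin_simple_toSubalgebra_of_isAlgebraic
      (Algebra.IsAlgebraic.isAlgebraic a), htop, IntermediateField.top_toSubalgebra]

theorem rowGEN : RowGEN := by
  intro k F _ _ _ _ _ α g v hg h0 htop hsep x
  have hα : IsIntegral (𝓞 k) α := ⟨g, hg, h0⟩
  have h1 : Algebra.adjoin k {algebraMap (𝓞 F) F α} = ⊤ := adj_top htop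
  have h2 : aeval α (derivative (minpoly (𝓞 k) α)) ∈ conductor (𝓞 k) α :=
    Ideal.mul_le_left ((conductor_mul_differentIdeal (𝓞 k) k F α h1).ge
      (Ideal.mem_span_singleton_self _))
  obtain ⟨q, hq⟩ := minpoly.isIntegrallyClosed_dvd hα h0
  have h3 : aeval α (derivative g) ∈ conductor (𝓞 k) α := by
    rw [hq, derivative_mul, map_add, map_mul, map_mul, minpoly.aeval, zero_mul, add_zero]
    exact Ideal.mul_mem_right _ _ h2
  have h4 := mem_conductor_iff.1 h3 x
  rw [Algebra.adjoin_singleton_eq_range_aeval] at h4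
  obtain ⟨h, hh⟩ := h4
  obtain ⟨a, b, hab⟩ := hsep
  obtain ⟨a, rfl⟩ := map_surjective _ Ideal.Quotient.mk_surjective a
  obtain ⟨b, rfl⟩ := map_surjective _ Ideal.Quotient.mk_surjective b
  refine ⟨b * h, ?_⟩
  have h5 := mk_aeval v.asIdeal (v.asIdeal.map (algebraMap (𝓞 k) (𝓞 F))) Ideal.le_comap_map α
    (a * g + b * derivative g)
  rw [Polynomial.map_add, Polynomial.map_mul, Polynomial.map_mul, ← derivative_map, hab,
    eval₂_one, map_add, map_mul, map_mul, h0, mul_zero, zero_add, ← map_one (Ideal.Quotient.mk _),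
    Ideal.Quotient.eq] at h5
  have e : x - aeval α (b * h) = -x * (aeval α b * aeval α (derivative g) - 1) := by
    rw [map_mul, show aeval α h = aeval α (derivative g) * x from hh]; ring
  rw [e]
  exact Ideal.mul_mem_left _ _ h5

section Res

variable {R : Type} [CommRing R] {g : R[X]} (hg : g.Monic) (v : Ideal R) [v.IsMaximal]
  [Finite (R ⧸ v)] (hi : Irreducible (g.map (Ideal.Quotient.mk v)))

/-- reduction of the coefficients -/
noncomputable def red (g : R[X]) (v : Ideal R) :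
    AdjoinRoot g →+* AdjoinRoot (g.map (Ideal.Quotient.mk v)) :=
  AdjoinRoot.map (Ideal.Quotient.mk v) g _ dvd_rfl

theorem red_mk (g : R[X]) (v : Ideal R) (p : R[X]) :
    red g v (AdjoinRoot.mk g p) = AdjoinRoot.mk _ (p.map (Ideal.Quotient.mk v)) := by
  induction p using Polynomial.induction_on' with
  | add p q hp hq => simp only [map_add, Polynomial.map_add, hp, hq]
  | monomial n a =>
    simp only [← C_mul_X_pow_eq_monomial, map_mul, map_pow, Polynomial.map_mul, Polynomial.map_pow,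
      map_C, map_X, AdjoinRoot.mk_C, AdjoinRoot.mk_X, red, AdjoinRoot.map_of, AdjoinRoot.map_root]

theorem red_surj (g : R[X]) (v : Ideal R) : Function.Surjective (red g v) := fun y => by
  obtain ⟨p, rfl⟩ := AdjoinRoot.mk_surjective y
  obtain ⟨p, rfl⟩ := map_surjective _ Ideal.Quotient.mk_surjective p
  exact ⟨_, red_mk g v p⟩

include hg in
omit [Finite (R ⧸ v)] in
theorem red_norm (s : AdjoinRoot g) :
    Ideal.Quotient.mk v (Algebra.norm R s) = Algebra.norm (R ⧸ v) (red g v s) ∧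
      Ideal.Quotient.mk v (Algebra.trace R _ s) = Algebra.trace (R ⧸ v) _ (red g v s) :=
  lmm_map (AdjoinRoot.powerBasis' hg) (AdjoinRoot.powerBasis' (hg.map _))
    (hg.natDegree_map _) _ _ (fun _ => AdjoinRoot.map_of _ _ _ _ _) (AdjoinRoot.map_root _ _ _ _) s

include hg hi in
theorem res_surj (a : R) : (∃ s : AdjoinRoot g, Algebra.norm R s - a ∈ v) ∧
    ∃ t : AdjoinRoot g, Algebra.trace R _ t - 1 ∈ v := by
  let _ := Ideal.Quotient.field v
  have := Fact.mk hi
  have := (AdjoinRoot.powerBasis' (hg.map (Ideal.Quotient.mk v))).finite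
  have : Finite (AdjoinRoot (g.map (Ideal.Quotient.mk v))) := Module.finite_of_finite (R ⧸ v)
  constructor
  · obtain ⟨y, hy⟩ := FiniteField.norm_surjective (R ⧸ v)
      (AdjoinRoot (g.map (Ideal.Quotient.mk v))) (Ideal.Quotient.mk v a)
    obtain ⟨s, rfl⟩ := red_surj g v y
    exact ⟨s, Ideal.Quotient.eq.1 ((red_norm hg v s).1.trans hy)⟩
  · obtain ⟨y, hy⟩ := Algebra.trace_surjective (R ⧸ v)
      (AdjoinRoot (g.map (Ideal.Quotient.mk v))) 1
    obtain ⟨s, rfl⟩ := red_surj g v y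
    exact ⟨s, Ideal.Quotient.eq.1 ((red_norm hg v s).2.trans hy)⟩

omit [Finite (R ⧸ v)] in
include hi in
theorem res_dvd {S : Type} [CommRing S] [Algebra R S] {α : S} (h0 : aeval α g = 0) {w : Ideal S}
    (hw : w ≠ ⊤) (h : v ≤ w.comap (algebraMap R S)) {p : R[X]} (hp : aeval α p ∈ w) :
    g.map (Ideal.Quotient.mk v) ∣ p.map (Ideal.Quotient.mk v) := by
  let _ := Ideal.Quotient.field v
  by_contra hd
  obtain ⟨a, b, hab⟩ := (hi.coprime_iff_not_dvd).2 hd
  have := congrArg (eval₂ (Ideal.quotientMap w (algebraMap R S) h) (Ideal.Quotient.mk w α)) hab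
  rw [eval₂_add, eval₂_mul, eval₂_mul, ← mk_aeval, ← mk_aeval, h0, map_zero,
    Ideal.Quotient.eq_zero_iff_mem.2 hp, eval₂_one, mul_zero, mul_zero, add_zero] at this
  exact hw (Ideal.Quotient.zero_eq_one_iff.1 this)

end Res

theorem rowIN : RowIN := by
  intro k F _ _ _ _ _ l α g hl hg h0 hd hi
  have hl0 : (l : 𝓞 k) ≠ 0 := by exact_mod_cast (by omega : l ≠ 0)
  have hmax : ∀ J : Ideal (𝓞 k), J.IsMaximal → (l : 𝓞 k) ∈ J → ∃ v : Pl k l, v.1.asIdeal = J :=
    fun J hJ h => ⟨⟨⟨J, hJ.isPrime, fun e => hl0 (by simpa [e] using h)⟩, h⟩, rfl⟩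
  obtain ⟨v₀⟩ : Nonempty (Pl k l) := by
    have hu : ¬ IsUnit (l : 𝓞 k) := fun h => by
      have h1 := Int.isUnit_iff_natAbs_eq.1 (h.map (Algebra.norm ℤ))
      rw [show (l : 𝓞 k) = algebraMap ℤ (𝓞 k) l by simp, Algebra.norm_algebraMap,
        Int.natAbs_pow, Int.natAbs_natCast, pow_eq_one_iff] at h1
      exact h1.elim (by omega) Module.finrank_pos.ne'
    obtain ⟨J, hJ, h⟩ := exists_max_ideal_of_mem_nonunits hu
    exact ⟨(hmax J hJ h).choose⟩
  have hirr : Irreducible (g.map (algebraMap (𝓞 k) k)) :=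
    hg.irreducible_iff_irreducible_map_fraction_map.1 (hg.irreducible_of_irreducible_map _ _ (hi v₀))
  have h0' : aeval (α : F) g = 0 := by
    rw [show (α : F) = algebraMap (𝓞 F) F α from rfl, aeval_algebraMap_apply, h0, map_zero]
  have hmin : g.map (algebraMap (𝓞 k) k) = minpoly k (α : F) :=
    minpoly.eq_of_irreducible_of_monic hirr (by rwa [aeval_map_algebraMap]) (hg.map _)
  have hdeg : (minpoly k (α : F)).natDegree = g.natDegree := by rw [← hmin, hg.natDegree_map]
  have htop : IntermediateField.adjoin k {(α : F)} = ⊤ :=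
    (Field.primitive_element_iff_minpoly_natDegree_eq k _).2 (hdeg.trans hd)
  have hle : ∀ w : Pl F l, (w.und k).1.asIdeal ≤ w.1.asIdeal.comap (algebraMap (𝓞 k) (𝓞 F)) :=
    fun w => le_rfl
  refine ⟨fun w w' e => ?_, fun M x hx => ?_⟩
  · have key : ∀ w w' : Pl F l, w.und k = w'.und k → w.1.asIdeal ≤ w'.1.asIdeal := by
      intro w w' e x hx
      have := (w.und k).1.isMaximal
      let _ := Ideal.Quotient.field (w.und k).1.asIdeal
      obtain ⟨h, hh⟩ := rowGEN k F α g (w.und k).1 hg h0 htop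
        (PerfectField.separable_of_irreducible (hi _)) x
      have h1 := Ideal.map_le_iff_le_comap.2 (hle w) hh
      have h2 : (w.und k).1.asIdeal ≤ w'.1.asIdeal.comap (algebraMap (𝓞 k) (𝓞 F)) :=
        e ▸ hle w'
      obtain ⟨q, hq⟩ := res_dvd _ (hi _) h0 w.1.isPrime.ne_top (hle w) (p := h)
        (by simpa using w.1.asIdeal.sub_mem hx h1)
      have h3 := mk_aeval _ _ h2 α h
      rw [hq, eval₂_mul, ← mk_aeval, h0, map_zero, zero_mul, Ideal.Quotient.eq_zero_iff_mem] at h3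
      simpa using w'.1.asIdeal.add_mem (Ideal.map_le_iff_le_comap.2 h2 hh) h3
    exact Subtype.ext (HeightOneSpectrum.ext (le_antisymm (key _ _ e) (key _ _ e.symm)))
  let D : Ideal (𝓞 k) :=
    { carrier := {b | ∃ a : 𝓞 k, x.val * algebraMap (𝓞 k) k b = algebraMap (𝓞 k) k a}
      zero_mem' := ⟨0, by simp⟩
      add_mem' := fun ⟨a, ha⟩ ⟨a', ha'⟩ => ⟨a + a', by rw [map_add, mul_add, ha, ha', map_add]⟩
      smul_mem' := fun c b ⟨a, ha⟩ => ⟨c * a, by
        rw [smul_eq_mul, map_mul, map_mul, mul_left_comm, ha]⟩ }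
  have hD : D ⊔ Ideal.span {(l : 𝓞 k) ^ (M + 1)} = ⊤ := by
    by_contra hne
    obtain ⟨J, hJ, hle⟩ := Ideal.exists_le_maximal _ hne
    obtain ⟨v, rfl⟩ := hmax J hJ (hJ.isPrime.mem_of_pow_mem _
      (hle (Ideal.mem_sup_right (Ideal.mem_span_singleton_self _))))
    obtain ⟨n, d, hnd⟩ := v.1.exists_primeCompl_mul_eq_of_integer x.val (hx v.1 v.2).le
    exact d.2 (hle (Ideal.mem_sup_left ⟨n, hnd⟩))
  obtain ⟨b, ⟨a, hab⟩, c, hc, hbc⟩ := Submodule.mem_sup.1 ((Ideal.eq_top_iff_one _).1 hD)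
  have hL : ∀ v : Pl k l, Ideal.span {(l : 𝓞 k) ^ (M + 1)} ≤ v.1.asIdeal := fun v =>
    (Ideal.span_singleton_le_iff_mem _).2 (Ideal.pow_mem_of_mem _ v.2 _ M.succ_pos)
  have hb : ∀ v : Pl k l, v.1.valuation k (algebraMap (𝓞 k) k b) = 1 := fun v =>
    v.1.valuation_eq_one_iff_notMem.2 fun h => v.1.isPrime.ne_top ((Ideal.eq_top_iff_one _).2
      (hbc ▸ v.1.asIdeal.add_mem h (hL v hc)))
  have ha : ∀ v : Pl k l, a ∉ v.1.asIdeal := fun v => by
    rw [← v.1.valuation_eq_one_iff_notMem (K := k), ← hab, map_mul, hx v.1 v.2, hb, mul_one]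
  have main : ∀ I : Ideal (𝓞 k), I ≠ 0 → I ∣ Ideal.span {(l : 𝓞 k) ^ (M + 1)} →
      ∃ s : AdjoinRoot g, Algebra.norm (𝓞 k) s - a ∈ I := by
    intro I
    induction I using UniqueFactorizationMonoid.induction_on_prime with
    | h₁ => exact fun h => absurd rfl h
    | h₂ I hI => exact fun _ _ => ⟨0, by rw [Ideal.isUnit_iff.1 hI]; trivial⟩
    | h₃ I P hI hP ih =>
      intro _ hdvd
      have hPp := Ideal.isPrime_of_prime hP
      obtain ⟨v, rfl⟩ := hmax P (hPp.isMaximal hP.ne_zero) (hPp.mem_of_pow_mem _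
        (Ideal.le_of_dvd (dvd_of_mul_right_dvd hdvd) (Ideal.mem_span_singleton_self _)))
      have := v.1.isMaximal
      obtain ⟨h1, h2⟩ := res_surj hg v.1.asIdeal (hi v) a
      exact norm_step (AdjoinRoot.powerBasis' hg) (ha v) h1 h2 (ih hI (dvd_of_mul_left_dvd hdvd))
  obtain ⟨s, hs⟩ := main _ (fun h => pow_ne_zero _ hl0 (Ideal.span_singleton_eq_bot.1 h)) dvd_rfl
  obtain ⟨p, rfl⟩ := AdjoinRoot.mk_surjective s
  have hN : ∀ v : Pl k l, Algebra.norm (𝓞 k) (AdjoinRoot.mk g p) ∉ v.1.asIdeal := fun v h =>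
    ha v (by simpa using v.1.asIdeal.sub_mem h (hL v hs))
  have hnorm : algebraMap (𝓞 k) k (Algebra.norm (𝓞 k) (AdjoinRoot.mk g p)) =
      Algebra.norm k (algebraMap (𝓞 F) F (aeval α p)) := by
    have h1 : Algebra.adjoin k {(α : F)} = ⊤ := adj_top htop
    have h2 : eval₂ (algebraMap (𝓞 k) F) (α : F) g = 0 := h0'
    rw [(lmm_map (AdjoinRoot.powerBasis' hg) (PowerBasis.ofAdjoinEqTop
      (Algebra.IsIntegral.isIntegral (α : F)) h1) hdeg (algebraMap (𝓞 k) k)
      (AdjoinRoot.lift (algebraMap (𝓞 k) F) (α : F) h2) (fun r => by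
        rw [AdjoinRoot.algebraMap_eq, AdjoinRoot.lift_of, ← IsScalarTower.algebraMap_apply])
      (AdjoinRoot.lift_root _) _).1, AdjoinRoot.lift_mk, ← aeval_algebraMap_apply]
    rfl
  have hy : ∀ w : Pl F l, aeval α p ∉ w.1.asIdeal := fun w h => by
    have := (w.und k).1.isMaximal
    let _ := Ideal.Quotient.field (w.und k).1.asIdeal
    have := Fact.mk (hi (w.und k))
    have := (AdjoinRoot.powerBasis' (hg.map (Ideal.Quotient.mk (w.und k).1.asIdeal))).finite
    refine hN (w.und k) (Ideal.Quotient.eq_zero_iff_mem.1 ?_)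
    rw [(red_norm hg _ _).1, red_mk, AdjoinRoot.mk_eq_zero.2
      (res_dvd _ (hi _) h0 w.1.isPrime.ne_top (hle w) h), Algebra.norm_zero]
  have hN1 : ∀ v : Pl k l, v.1.valuation k
      (algebraMap (𝓞 k) k (Algebra.norm (𝓞 k) (AdjoinRoot.mk g p))) = 1 := fun v =>
    v.1.valuation_eq_one_iff_notMem.2 (hN v)
  have hy0 : algebraMap (𝓞 F) F (aeval α p) ≠ 0 := fun h => by
    have := hN1 v₀
    rw [hnorm, h, Algebra.norm_zero, map_zero] at this
    exact zero_ne_one this
  refine ⟨Un.mk _ hy0, fun w hw => w.valuation_eq_one_iff_notMem.2 (hy ⟨w, hw⟩), fun v hv => ?_,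
    fun v hv => ?_⟩
  · rw [Un.val_sub, Un.val_nrm, Un.val_mk, ← hnorm, map_div₀, hx v hv, hN1 ⟨v, hv⟩, div_one]
  · rw [Un.val_sub, Un.val_nrm, Un.val_mk, ← hnorm]
    set n := Algebra.norm (𝓞 k) (AdjoinRoot.mk g p)
    have hn0 : algebraMap (𝓞 k) k n ≠ 0 := fun h => by simpa [h] using hN1 v₀
    have hb0 : algebraMap (𝓞 k) k b ≠ 0 := fun h => by simpa [h] using hb v₀
    obtain ⟨u, hu⟩ := Ideal.mem_span_singleton'.1 (Ideal.sub_mem _ (Ideal.mul_mem_right n _ hc) hs)
    have e : x.val / algebraMap (𝓞 k) k n - 1 = algebraMap (𝓞 k) k (u * l) * (l : k) ^ M /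
        (algebraMap (𝓞 k) k b * algebraMap (𝓞 k) k n) := by
      have e1 : a - b * n = u * l * l ^ M := by
        linear_combination (-n) * hbc - hu
      have e2 := congrArg (algebraMap (𝓞 k) k) e1
      rw [map_sub, map_mul, ← hab, map_mul _ (u * l), map_pow, map_natCast] at e2
      rw [← e2]
      field_simp
    rw [e, map_div₀, map_mul (v.valuation k), map_mul (v.valuation k), map_pow, hb ⟨v, hv⟩,
      hN1 ⟨v, hv⟩, mul_one, div_one]
    exact mul_le_of_le_one_left' (v.valuation_le_one _)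

end Pool.Agent.MP_db5b97_nt.H76
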