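import Pool.Agent.MP_db5b97_nt.H85.Spec2
import Pool.Agent.MP_db5b97_nt.H76.IN

/-! Base change to an inert extension: the cyclic layers of fixed fields. -/

namespace Pool.Agent.MP_db5b97_nt.H76

open NumberField IsDedekindDomain Polynomial Pool.Agent.MP_db5b97_nt.H85

theorem Nm_map {G G' A B : Type} [Group G] [Group G'] [AddCommGroup A] [AddCommGroup B]
    [DistribMulAction G A] [DistribMulAction G' B] (f : A →+ B) (σ : G) (σ' : G') (p : ℕ)
    (hf : ∀ x, f (σ • x) = σ' • f x) (x : A) : f (Nm σ p x) = Nm σ' p (f x) := by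
  have h : ∀ (i : ℕ) x, f (σ ^ i • x) = σ' ^ i • f x := fun i => by
    induction i with
    | zero => simp
    | succ i ih => intro x; rw [pow_succ', pow_succ', mul_smul, mul_smul, hf, ih]
  simp only [Nm_apply, map_sum, h]

theorem fix_sup {P A : Type} [Group P] [MulAction P A] (Q : Subgroup P) (σ : P) (x : A) :
    (∀ s : ↥(Q ⊔ Subgroup.zpowers σ), s • x = x) ↔ (∀ s ∈ Q, s • x = x) ∧ σ • x = x := by
  have : (∀ s : ↥(Q ⊔ Subgroup.zpowers σ), s • x = x) ↔
      Q ⊔ Subgroup.zpowers σ ≤ MulAction.stabilizer P x :=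
    ⟨fun h s hs => h ⟨s, hs⟩, fun h s => h s.2⟩
  rw [this, sup_le_iff, Subgroup.zpowers_le]
  rfl

section Basic

variable {k F : Type} [Field k] [NumberField k] [Field F] [NumberField F] [Algebra k F] {l : ℕ}

theorem dv_smul (h2 : RowNT2) {G : Type} [Group G] [MulSemiringAction G F] (s : G) (x : Un F) :
    dv F l (s • x) = s • dv F l x := by
  ext w
  rw [Finsupp.comapSMul_apply, dv_apply, dv_apply, ← h2.ord_smul F G s (s⁻¹ • w).1 x]
  congr 1
  exact congrArg _ (smul_inv_smul s w.1).symm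

theorem dv_inc (h2 : RowNT2) (hu : Unr k F l) (x : Un k) :
    dv F l (Un.inc k F x) = con k F l (dv k l x) := by
  ext w
  rw [dv_apply, h2.ord_inc, hu w, con_apply, dv_apply, Nat.cast_one, one_mul]
  rfl

omit [NumberField k] [NumberField F] in
theorem inc_inj : Function.Injective (Un.inc k F) := fun _ _ h =>
  Un.ext ((algebraMap k F).injective (congrArg Un.val h))

theorem con_inj (h1 : RowNT1) : Function.Injective (con k F l) := fun D D' h => by
  ext v
  obtain ⟨w, rfl⟩ := (h1.und_surj k F l).2 v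
  exact DFunLike.congr_fun h w

theorem unr_tower (h1 : RowNT1) (K : Type) [Field K] [NumberField K] [Algebra k K] [Algebra K F]
    [IsScalarTower k K F] (hu : Unr k F l) : Unr k K l ∧ Unr K F l := by
  have key : ∀ w : Pr F l, (w.und K).1.asIdeal.ramificationIdx (𝓞 k) *
      w.1.asIdeal.ramificationIdx (𝓞 K) = 1 := fun w => by
    have : w.1.asIdeal.LiesOver (w.und K).1.asIdeal := ⟨rfl⟩
    rw [← Ideal.ramificationIdx_tower, hu w]
  refine ⟨fun v => ?_, fun w => (mul_eq_one.1 (key w)).2⟩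
  obtain ⟨w, rfl⟩ := (h1.und_surj K F l).2 v
  exact (mul_eq_one.1 (key w)).1

theorem inert_one (h1 : RowNT1) (K : Type) [Field K] [NumberField K] [Algebra k K] [Algebra K F]
    [IsScalarTower k K F] (h : ∀ (w : Pl F l) (x : 𝓞 F), ∃ y : 𝓞 k,
      x - algebraMap (𝓞 k) (𝓞 F) y ∈ w.1.asIdeal) (v : Pl K l) :
    v.1.asIdeal.inertiaDeg (𝓞 k) = 1 := by
  obtain ⟨w, rfl⟩ := (h1.und_surj K F l).1 v
  have : w.1.asIdeal.LiesOver (w.und K).1.asIdeal := ⟨rfl⟩
  have : w.1.asIdeal.LiesOver (w.und k).1.asIdeal := ⟨rfl⟩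
  have := w.1.isMaximal
  have := (w.und k).1.isMaximal
  have h0 : w.1.asIdeal.inertiaDeg (𝓞 k) = 1 := by
    let _ := Ideal.Quotient.field (w.und k).1.asIdeal
    rw [Ideal.inertiaDeg_eq_of_isMaximal (w.und k).1.asIdeal,
      Algebra.finrank_eq_one_iff_bijective_algebraMap]
    refine ⟨RingHom.injective _, fun x => ?_⟩
    obtain ⟨x, rfl⟩ := Ideal.Quotient.mk_surjective x
    obtain ⟨y, hy⟩ := h w x
    exact ⟨Ideal.Quotient.mk _ y, (Ideal.Quotient.eq.2 hy).symm⟩
  rw [Ideal.inertiaDeg_tower (w.und K).1.asIdeal] at h0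
  exact (mul_eq_one.1 h0).1

theorem irr_down (h1 : RowNT1) {g : (𝓞 k)[X]} (hg : g.Monic) (hi : ∀ w : Pl F l,
      Irreducible ((g.map (algebraMap (𝓞 k) (𝓞 F))).map (Ideal.Quotient.mk w.1.asIdeal)))
    (v : Pl k l) : Irreducible (g.map (Ideal.Quotient.mk v.1.asIdeal)) := by
  obtain ⟨w, rfl⟩ := (h1.und_surj k F l).1 v
  have key : ∀ (I : Ideal (𝓞 k)) (J : Ideal (𝓞 F)) [I.IsPrime] [J.IsPrime]
      (h : I ≤ J.comap (algebraMap (𝓞 k) (𝓞 F))),
      Irreducible ((g.map (algebraMap (𝓞 k) (𝓞 F))).map (Ideal.Quotient.mk J)) →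
      Irreducible (g.map (Ideal.Quotient.mk I)) := fun I J _ _ h hi => by
    refine (hg.map _).irreducible_of_irreducible_map
      (Ideal.quotientMap J (algebraMap (𝓞 k) (𝓞 F)) h) _ ?_
    rw [Polynomial.map_map] at hi ⊢
    exact hi
  have := w.1.isPrime
  have := (w.und k).1.isPrime
  exact key (w.und k).1.asIdeal w.1.asIdeal le_rfl (hi w)

theorem exists_pb {α : 𝓞 F} {g : (𝓞 k)[X]} (hl : 2 ≤ l) (hg : g.Monic) (h0 : aeval α g = 0)
    (hd : g.natDegree = Module.finrank k F)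
    (hi : ∀ v : Pl k l, Irreducible (g.map (Ideal.Quotient.mk v.1.asIdeal))) :
    ∃ b : PowerBasis k F, b.gen = α := by
  have hl0 : (l : 𝓞 k) ≠ 0 := by exact_mod_cast (by omega : l ≠ 0)
  obtain ⟨v₀⟩ : Nonempty (Pl k l) := by
    have hu : ¬ IsUnit (l : 𝓞 k) := fun h => by
      have h1 := Int.isUnit_iff_natAbs_eq.1 (h.map (Algebra.norm ℤ))
      rw [show (l : 𝓞 k) = algebraMap ℤ (𝓞 k) l by simp, Algebra.norm_algebraMap,
        Int.natAbs_pow, Int.natAbs_natCast, pow_eq_one_iff] at h1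
      exact h1.elim (by omega) Module.finrank_pos.ne'
    obtain ⟨J, hJ, h⟩ := exists_max_ideal_of_mem_nonunits hu
    exact ⟨⟨⟨J, hJ.isPrime, fun e => hl0 (by simpa [e] using h)⟩, h⟩⟩
  have hirr : Irreducible (g.map (algebraMap (𝓞 k) k)) :=
    hg.irreducible_iff_irreducible_map_fraction_map.1 (hg.irreducible_of_irreducible_map _ _ (hi v₀))
  have h0' : aeval (α : F) g = 0 := by
    rw [show (α : F) = algebraMap (𝓞 F) F α from rfl, aeval_algebraMap_apply, h0, map_zero]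
  have hmin : g.map (algebraMap (𝓞 k) k) = minpoly k (α : F) :=
    minpoly.eq_of_irreducible_of_monic hirr (by rwa [aeval_map_algebraMap]) (hg.map _)
  have hdeg : (minpoly k (α : F)).natDegree = g.natDegree := by rw [← hmin, hg.natDegree_map]
  exact ⟨PowerBasis.ofAdjoinEqTop (Algebra.IsIntegral.isIntegral _) (adj_top
    ((Field.primitive_element_iff_minpoly_natDegree_eq k _).2 (hdeg.trans hd))), rfl⟩

end Basic

section Fixed

theorem exists_fix (F G : Type) [Field F] [NumberField F] [Group G] [Finite G]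
    [MulSemiringAction G F] [FaithfulSMul G F] :
    ∃ (K : Type) (_ : Field K) (_ : NumberField K) (_ : Algebra K F), IsGaloisGroup G K F :=
  ⟨FixedPoints.subfield G F, inferInstance, inferInstance, inferInstance, inferInstance⟩

theorem exists_lift {F G K A : Type} [Field F] [Group G] [MulSemiringAction G F] [Field K]
    [Algebra K F] [h : IsGaloisGroup G K F] [CommRing A] (φ : A →+* F)
    (hφ : ∀ (s : G) a, s • φ a = φ a) : ∃ ψ : A →+* K, ∀ a, algebraMap K F (ψ a) = φ a := by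
  choose ψ hψ using fun a => h.isInvariant.isInvariant (φ a) fun s => hφ s a
  have hi := (algebraMap K F).injective
  exact ⟨{ toFun := ψ
           map_one' := hi (by simp [hψ])
           map_mul' := fun a b => hi (by simp [hψ])
           map_zero' := hi (by simp [hψ])
           map_add' := fun a b => hi (by simp [hψ]) }, hψ⟩

theorem smul_alg {F G K : Type} [Field F] [Group G] [MulSemiringAction G F] [Field K]
    [Algebra K F] [h : IsGaloisGroup G K F] (s : G) (x : K) :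
    s • algebraMap K F x = algebraMap K F x := by
  have := h.commutes
  exact smul_algebraMap s x

theorem int_inv {F : Type} (G K : Type) [Field F] [NumberField F] [Group G] [MulSemiringAction G F]
    [Field K] [NumberField K] [Algebra K F] [IsGaloisGroup G K F] (y : 𝓞 F)
    (hy : ∀ s : G, s • (y : F) = y) : ∃ z, algebraMap (𝓞 K) (𝓞 F) z = y :=
  (inferInstance : IsGaloisGroup G (𝓞 K) (𝓞 F)).isInvariant.isInvariant y fun s =>
    RingOfIntegers.ext (hy s)

end Fixed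

section Tower

variable {P : Type} [Group P] [Finite P] (Q : Subgroup P) (σ : P) (k K F : Type) [Field k]
  [NumberField k] [Field K] [NumberField K] [Field F] [NumberField F] [Algebra k K] [Algebra K F]
  [Algebra k F] [IsScalarTower k K F] [MulSemiringAction P F] [hK : IsGaloisGroup Q K F]
  [hk : IsGaloisGroup ↥(Q ⊔ Subgroup.zpowers σ) k F]

theorem exists_tau {p : ℕ} (hp : p.Prime) (hn : σ ∈ Subgroup.normalizer (Q : Set P))
    (hσ : σ ^ p ∈ Q) (hσ' : σ ∉ Q) :
    ∃ τ : K ≃ₐ[k] K, (∀ x, algebraMap K F (τ x) = σ • algebraMap K F x) ∧ τ ≠ 1 ∧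
      Nat.card (Subgroup.zpowers τ) = p ∧ IsGaloisGroup (Subgroup.zpowers τ) k K := by
  have hi := (algebraMap K F).injective
  have hσk : ∀ x : k, σ • algebraMap k F x = algebraMap k F x := fun x =>
    smul_alg (⟨σ, Subgroup.mem_sup_right (Subgroup.mem_zpowers σ)⟩ :
      ↥(Q ⊔ Subgroup.zpowers σ)) x
  obtain ⟨ψ, hψ⟩ := exists_lift (G := Q) (K := K)
    ((MulSemiringAction.toRingHom P F σ).comp (algebraMap K F)) fun s a => by
      have h1 : σ⁻¹ * s * σ ∈ Q := by
        have := (Subgroup.mem_normalizer_iff''.1 hn s).1 s.2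
        exact this
      have h2 := smul_alg (F := F) (⟨_, h1⟩ : Q) a
      show (s : P) • σ • algebraMap K F a = σ • algebraMap K F a
      conv_rhs => rw [← h2]
      show _ = σ • (σ⁻¹ * s * σ) • algebraMap K F a
      rw [smul_smul, smul_smul, mul_assoc, mul_inv_cancel_left]
  have hψ' : ∀ x, algebraMap K F (ψ x) = σ • algebraMap K F x := hψ
  let ψ' : K →ₐ[k] K :=
    { ψ with
      commutes' := fun x => hi (by
        show algebraMap K F (ψ _) = _
        rw [hψ', ← IsScalarTower.algebraMap_apply, hσk]) }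
  let τ : K ≃ₐ[k] K := AlgEquiv.ofBijective ψ' ψ'.bijective
  have hτ : ∀ x, algebraMap K F (τ x) = σ • algebraMap K F x := hψ'
  have hτi : ∀ (i : ℕ) x, algebraMap K F ((τ ^ i) x) = σ ^ i • algebraMap K F x := fun i => by
    induction i with
    | zero => simp
    | succ i ih => intro x; rw [pow_succ', pow_succ', AlgEquiv.mul_apply, hτ, ih, mul_smul]
  have hsur : ∀ x : K, τ x = x → ∃ y, algebraMap k K y = x := fun x hx => by
    obtain ⟨y, hy⟩ := hk.isInvariant.isInvariant (algebraMap K F x)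
      ((fix_sup Q σ _).2 ⟨fun s hs => smul_alg (⟨s, hs⟩ : Q) x, by rw [← hτ, hx]⟩)
    exact ⟨y, hi (by rw [← IsScalarTower.algebraMap_apply, hy])⟩
  have hne : τ ≠ 1 := fun e => by
    have h1 : Module.finrank k K = 1 :=
      Algebra.finrank_eq_one_iff_bijective_algebraMap.2
        ⟨(algebraMap k K).injective, fun x => hsur x (by rw [e]; rfl)⟩
    have h2 := Module.finrank_mul_finrank k K F
    rw [h1, one_mul, ← IsGaloisGroup.card_eq_finrank Q K F,
      ← IsGaloisGroup.card_eq_finrank ↥(Q ⊔ Subgroup.zpowers σ) k F] at h2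
    have h3 : Q = Q ⊔ Subgroup.zpowers σ := Subgroup.eq_of_le_of_card_ge le_sup_left h2.ge
    exact hσ' (h3 ▸ Subgroup.mem_sup_right (Subgroup.mem_zpowers σ))
  refine ⟨τ, hτ, hne, ?_, inferInstance, inferInstance, ⟨fun x hx => ?_⟩⟩
  · have := Fact.mk hp
    rw [Nat.card_zpowers]
    refine orderOf_eq_prime (AlgEquiv.ext fun x => hi ?_) hne
    rw [hτi]
    exact smul_alg (⟨_, hσ⟩ : Q) x
  · exact hsur x (hx ⟨τ, Subgroup.mem_zpowers τ⟩)

variable (l p : ℕ)

/-- transfer of invariants and norms along a tower of fixed fields -/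
structure TF : Prop where
  fU : ∀ x ∈ Fix (Un F) Q, σ • x = x → ∃ y, Un.inc k F y = x
  fU' : ∀ y, Un.inc k F y ∈ Fix (Un F) Q ∧ σ • Un.inc k F y = Un.inc k F y
  fD : ∀ D ∈ Fix (Dv F l) Q, σ • D = D → ∃ E, con k F l E = D
  fD' : ∀ E, con k F l E ∈ Fix (Dv F l) Q ∧ σ • con k F l E = con k F l E
  nU : ∀ y, Un.inc k F y ∈ Ns (Un F) p Q σ ↔ y ∈ (Un.nrm k K).range
  nD : ∀ E, con k F l E ∈ Ns (Dv F l) p Q σ ↔ E ∈ (nrD K l k).range
  dvi : ∀ y, dv F l (Un.inc k F y) = con k F l (dv k l y)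

omit [Finite P] in
theorem tf (h1 : RowNT1) (h2 : RowNT2) (hp : p.Prime) (hu : Unr k F l) (τ : K ≃ₐ[k] K)
    (hτ : ∀ x, algebraMap K F (τ x) = σ • algebraMap K F x) (hne : τ ≠ 1)
    (hc : Nat.card (Subgroup.zpowers τ) = p) [IsGaloisGroup (Subgroup.zpowers τ) k K] :
    TF Q σ k K F l p := by
  have hU : ∀ x : Un F, x ∈ Fix (Un F) Q ↔ x ∈ (Un.inc K F).range := fun x =>
    ((h2.inc_range K F Q x).trans Subtype.forall).symm
  have hD : ∀ D : Dv F l, D ∈ Fix (Dv F l) Q ↔ D ∈ (con K F l).range := fun D =>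
    ((h2.con_range K F Q l D).trans Subtype.forall).symm
  have hU' : ∀ x : Un F, x ∈ (Un.inc k F).range ↔ x ∈ Fix (Un F) Q ∧ σ • x = x := fun x =>
    (h2.inc_range k F ↥(Q ⊔ Subgroup.zpowers σ) x).trans (fix_sup Q σ x)
  have hD' : ∀ D : Dv F l, D ∈ (con k F l).range ↔ D ∈ Fix (Dv F l) Q ∧ σ • D = D := fun D =>
    (h2.con_range k F ↥(Q ⊔ Subgroup.zpowers σ) l D).trans (fix_sup Q σ D)
  let t : Subgroup.zpowers τ := ⟨τ, Subgroup.mem_zpowers τ⟩
  have hN : ∀ y : Un K, Nm σ p (Un.inc K F y) = Un.inc k F (Un.nrm k K y) := fun y => by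
    rw [← Nm_map (Un.inc K F) t σ p (fun x => Un.ext (hτ x.val)),
      ← h2.inc_nrm k K _ t p hp hc (fun e => hne (congrArg Subtype.val e))]
    exact Un.ext (IsScalarTower.algebraMap_apply k K F _).symm
  have hN' : ∀ E : Dv K l, Nm σ p (con K F l E) = con k F l (nrD K l k E) := fun E => by
    refine DFunLike.congr_fun (hom_ext (f := (Nm σ p).comp (con K F l))
      (g := (con k F l).comp (nrD K l k)) fun y => ?_) E
    rw [AddMonoidHom.comp_apply, AddMonoidHom.comp_apply, ← dv_inc h2 (unr_tower h1 K hu).2,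
      ← Nm_map (dv F l) σ σ p (dv_smul h2 σ), hN, dv_inc h2 hu, h1.dv_nrm]
  refine ⟨fun x hx hs => (hU' x).2 ⟨hx, hs⟩, fun y => (hU' _).1 ⟨y, rfl⟩,
    fun x hx hs => (hD' x).2 ⟨hx, hs⟩, fun y => (hD' _).1 ⟨y, rfl⟩, fun y => ⟨?_, ?_⟩,
    fun E => ⟨?_, ?_⟩, dv_inc h2 hu⟩
  · rintro ⟨x, hx, e⟩
    obtain ⟨z, rfl⟩ := (hU x).1 hx
    exact ⟨z, inc_inj ((hN z).symm.trans e)⟩
  · rintro ⟨z, rfl⟩
    exact ⟨_, (hU _).2 ⟨z, rfl⟩, hN z⟩
  · rintro ⟨x, hx, e⟩
    obtain ⟨z, rfl⟩ := (hD x).1 hx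
    exact ⟨z, con_inj h1 ((hN' z).symm.trans e)⟩
  · rintro ⟨z, rfl⟩
    exact ⟨_, (hD _).2 ⟨z, rfl⟩, hN' z⟩

end Tower

section Layer

variable {P : Type} [Group P] [Finite P] (Q : Subgroup P) (σ : P) (k K F k' K' F' : Type) [Field k]
  [NumberField k] [Field K] [NumberField K] [Field F] [NumberField F] [Algebra k K] [Algebra K F]
  [Algebra k F] [IsScalarTower k K F] [MulSemiringAction P F] [IsGaloisGroup Q K F]
  [IsGaloisGroup ↥(Q ⊔ Subgroup.zpowers σ) k F] [Field k'] [NumberField k'] [Field K']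
  [NumberField K'] [Field F'] [NumberField F'] [Algebra k' K'] [Algebra K' F'] [Algebra k' F']
  [IsScalarTower k' K' F'] [MulSemiringAction P F'] [IsGaloisGroup Q K' F']
  [IsGaloisGroup ↥(Q ⊔ Subgroup.zpowers σ) k' F'] [Algebra k k'] [Algebra K K'] [Algebra F F']
  [Algebra k K'] [IsScalarTower k K K'] [IsScalarTower k k' K'] [Algebra k F']
  [IsScalarTower k F F'] [IsScalarTower k k' F'] [Algebra K F'] [IsScalarTower K F F']
  [IsScalarTower K K' F'] [FaithfulSMul P F] [FaithfulSMul P F']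

include k K k' K' in
theorem layer (h1 : RowNT1) (h2 : RowNT2) (hS : RowSQ) {p l : ℕ} (hp : p.Prime)
    (hn : σ ∈ Subgroup.normalizer (Q : Set P)) (hσ : σ ^ p ∈ Q) (hσ' : σ ∉ Q)
    {α : 𝓞 F'} {g : (𝓞 F)[X]}
    (he : ∀ (s : P) x, algebraMap F F' (s • x) = s • algebraMap F F' x)
    (hi : ∃ i : F, i ^ 2 = -1 ∧ ∀ s : P, s • i = i) (hl : 2 ≤ l)
    (hθ : ∃ θ : 𝓞 F, ∀ s : P, s ≠ 1 → ∀ w : Pr F l, s • θ - θ ∉ w.1.asIdeal)
    (hr : ∀ (w : Pl F l) (x : 𝓞 F), ∃ y : 𝓞 F, (∀ s : P, s • y = y) ∧ x - y ∈ w.1.asIdeal)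
    (hg : g.Monic) (h0 : aeval α g = 0) (hd : g.natDegree = Module.finrank F F')
    (hirr : ∀ w : Pl F l, Irreducible (g.map (Ideal.Quotient.mk w.1.asIdeal)))
    (hα : ∀ s : P, s • α = α) (hc : ∀ (s : P) n, s • g.coeff n = g.coeff n) :
    LayHyp p Q σ (dv F' l) (dv F l) (Un.nrm F F') (nrD F' l F) := by
  obtain ⟨θ, hθ⟩ := hθ
  have hu : Unr k F l := h2.unr k F ↥(Q ⊔ Subgroup.zpowers σ) l fun s hs w =>
    ⟨θ, hθ s (fun e => hs (Subtype.ext e)) w⟩
  have hu' : Unr k' F' l := h2.unr k' F' ↥(Q ⊔ Subgroup.zpowers σ) l fun s hs w =>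
    ⟨algebraMap (𝓞 F) (𝓞 F') θ, fun h => hθ s (fun e => hs (Subtype.ext e)) (w.und F) (by
      show algebraMap (𝓞 F) (𝓞 F') _ ∈ w.1.asIdeal
      rw [map_sub]
      convert h using 2
      exact RingOfIntegers.ext (he s θ))⟩
  obtain ⟨τ, hτ, hne, hcard, _⟩ := exists_tau Q σ k K F hp hn hσ hσ'
  obtain ⟨τ', hτ', hne', hcard', _⟩ := exists_tau Q σ k' K' F' hp hn hσ hσ'
  have T := tf Q σ k K F l p h1 h2 hp hu τ hτ hne hcard
  have T' := tf Q σ k' K' F' l p h1 h2 hp hu' τ' hτ' hne' hcard'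
  have hinv : ∀ y : 𝓞 F, (∀ s : P, s • y = y) → ∃ z, algebraMap (𝓞 k) (𝓞 F) z = y := fun y hy =>
    int_inv ↥(Q ⊔ Subgroup.zpowers σ) k y fun s => congrArg RingOfIntegers.val (hy s)
  obtain ⟨α0, rfl⟩ := int_inv ↥(Q ⊔ Subgroup.zpowers σ) k' α
    fun s => congrArg RingOfIntegers.val (hα s)
  obtain ⟨g0, rfl, hd0, hg0⟩ := lifts_and_natDegree_eq_and_monic
    ((lifts_iff_coeff_lifts (f := algebraMap (𝓞 k) (𝓞 F)) g).2 fun n => hinv _ fun s => hc s n) hg
  have h00 : aeval α0 g0 = 0 := by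
    rw [aeval_map_algebraMap, aeval_algebraMap_apply] at h0
    exact RingOfIntegers.algebraMap.injective k' F' (by rw [h0, map_zero])
  have hrk : Module.finrank k k' = Module.finrank F F' := by
    have e1 := Module.finrank_mul_finrank k k' F'
    rw [← Module.finrank_mul_finrank k F F',
      ← IsGaloisGroup.card_eq_finrank ↥(Q ⊔ Subgroup.zpowers σ) k' F',
      ← IsGaloisGroup.card_eq_finrank ↥(Q ⊔ Subgroup.zpowers σ) k F, mul_comm] at e1
    exact Nat.eq_of_mul_eq_mul_left Nat.card_pos e1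
  have hd1 : g0.natDegree = Module.finrank k k' := by rw [hd0, hd, hrk]
  obtain ⟨b, hb⟩ := exists_pb hl hg0 h00 hd1 (irr_down h1 hg0 hirr)
  obtain ⟨b', hb'⟩ := exists_pb hl hg h0 hd hirr
  have C1 : ∀ x, Un.nrm F F' (Un.inc k' F' x) = Un.inc k F (Un.nrm k k' x) := fun x =>
    Un.ext (lmm_map b b' (by rw [← b.finrank, ← b'.finrank, hrk]) (algebraMap k F)
      (algebraMap k' F') (fun r => by
        rw [← IsScalarTower.algebraMap_apply, ← IsScalarTower.algebraMap_apply])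
      (by rw [hb, hb']; rfl) x.val).1.symm
  have C2 : ∀ D, nrD F' l F (con k' F' l D) = con k F l (nrD k' l k D) := fun D => by
    refine DFunLike.congr_fun (hom_ext (f := (nrD F' l F).comp (con k' F' l))
      (g := (con k F l).comp (nrD k' l k)) fun y => ?_) D
    rw [AddMonoidHom.comp_apply, AddMonoidHom.comp_apply, ← T'.dvi, ← h1.dv_nrm, C1, T.dvi,
      h1.dv_nrm]
  obtain ⟨i, hi, hi'⟩ := hi
  obtain ⟨j, rfl⟩ := (inferInstance :
    IsGaloisGroup ↥(Q ⊔ Subgroup.zpowers σ) k F).isInvariant.isInvariant i fun s => hi' s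
  obtain ⟨S1, S2, S3, S4⟩ := hS p hp k K k' K' (Subgroup.zpowers τ) (Subgroup.zpowers τ')
    ⟨τ, Subgroup.mem_zpowers τ⟩ ⟨τ', Subgroup.mem_zpowers τ'⟩ l α0 g0 hcard hcard'
    (fun e => hne (congrArg Subtype.val e))
    (fun x => (algebraMap K' F').injective (by
      show algebraMap K' F' (algebraMap K K' (τ x)) = algebraMap K' F' (τ' (algebraMap K K' x))
      rw [hτ', ← IsScalarTower.algebraMap_apply, ← IsScalarTower.algebraMap_apply,
        IsScalarTower.algebraMap_apply K F F', IsScalarTower.algebraMap_apply K F F', hτ, he]))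
    hl ⟨j, (algebraMap k F).injective (by simpa using hi)⟩ (unr_tower h1 K hu).1
    (unr_tower h1 K' hu').1
    (inert_one h1 K fun w x => by
      obtain ⟨y, hy, hx⟩ := hr w x
      obtain ⟨z, rfl⟩ := hinv y hy
      exact ⟨z, hx⟩)
    hg0 h00 hd1
    (irr_down (F := F) h1 (hg0.map _) fun w => by
      rw [Polynomial.map_map (algebraMap (𝓞 k) (𝓞 K)), ← IsScalarTower.algebraMap_eq]
      exact hirr w)
  refine ⟨h2.h1u F' P p Q σ hp hn hσ hσ', h2.h1u F P p Q σ hp hn hσ hσ',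
    h2.h1p _ P p Q σ hp.pos hn hσ, h2.h1p _ P p Q σ hp.pos hn hσ, ?_, ?_, ?_, ?_⟩
  · intro x hx hs ha hb
    obtain ⟨y, rfl⟩ := T'.fU x hx hs
    rw [T'.dvi, T'.nD] at ha
    rw [C1, T.nU] at hb
    exact (T'.nU y).2 (S1 y ha hb)
  · intro x hx hs ha
    obtain ⟨y, rfl⟩ := T.fU x hx hs
    rw [T.dvi, T.nD] at ha
    obtain ⟨y', ha', hb'⟩ := S2 y ha
    refine ⟨_, (T'.fU' y').1, (T'.fU' y').2, ?_, ?_⟩
    · rwa [T'.dvi, T'.nD]
    · rwa [C1, ← map_sub, T.nU]
  · intro D hD hs x hx hs' h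
    obtain ⟨E, rfl⟩ := T'.fD D hD hs
    obtain ⟨y, rfl⟩ := T.fU x hx hs'
    rw [C2, T.dvi, ← map_sub, T.nD] at h
    obtain ⟨y', h'⟩ := S3 E y h
    refine ⟨_, (T'.fU' y').1, (T'.fU' y').2, ?_⟩
    rwa [T'.dvi, ← map_sub, T'.nD]
  · intro D hD hs
    obtain ⟨E, rfl⟩ := T.fD D hD hs
    obtain ⟨E', y, h⟩ := S4 E
    refine ⟨_, (T'.fD' E').1, (T'.fD' E').2, _, (T.fU' y).1, (T.fU' y).2, ?_⟩
    rwa [C2, T.dvi, ← map_sub, ← map_sub, T.nD]

end Layer

theorem rowCORE (h1 : RowNT1) (h2 : RowNT2) (hS : RowSQ) (hC : RowCT) : RowCORE := by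
  intro p hp P F F' M _ _ _ _ _ _ _ _ _ _ _ _ _ l α g hP he hi hl hθ hr hg h0 hd hirr hα hco c hc
    hc0 β hβ hβ0
  have : FaithfulSMul P F' := ⟨fun {s t} h => eq_of_smul_eq_smul (α := F) fun x =>
    (algebraMap F F').injective (by rw [he, he, h])⟩
  have hN : ∀ (s : P) x, Un.nrm F F' (s • x) = s • Un.nrm F F' x := fun s x => Un.ext (by
    have := Algebra.norm_eq_of_equiv_equiv (MulSemiringAction.toRingEquiv P F s)
      (MulSemiringAction.toRingEquiv P F' s) (RingHom.ext fun y => he s y) x.val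
    rw [Un.val_smul, Un.val_nrm, Un.val_nrm, this]
    exact ((MulSemiringAction.toRingEquiv P F s).apply_symm_apply _).symm)
  have hI : ∀ (s : P) x, Un.inc F F' (s • x) = s • Un.inc F F' x := fun s x => Un.ext (he s x.val)
  refine hC p hp P (Un F') (Dv F' l) (Un F) (Dv F l) M (dv F' l) (dv F l) (Un.nrm F F')
    (nrD F' l F) hP (dv_smul h2) (dv_smul h2) hN (fun s D => ?_) (h1.dv_nrm F F' l) (h2.h90 F' P)
    (h2.h90 F P) (fun Q σ hn hσ hσ' => ?_) _ ⟨fun s hs x hx y hy => ?_, fun s hs t ht y hy => ?_⟩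
    (fun s y => ?_) β ⟨hβ.1, fun s hs y hy => ?_⟩ hβ0
  · refine DFunLike.congr_fun (hom_ext (f := (nrD F' l F).comp (DistribSMul.toAddMonoidHom _ s))
      (g := (DistribSMul.toAddMonoidHom _ s).comp (nrD F' l F)) fun y => ?_) D
    show nrD F' l F (s • dv F' l y) = s • nrD F' l F (dv F' l y)
    rw [← dv_smul h2, ← h1.dv_nrm, ← h1.dv_nrm, hN, dv_smul h2]
  · obtain ⟨K, _, _, _, _⟩ := exists_fix F Q
    obtain ⟨k, _, _, _, _⟩ := exists_fix F ↥(Q ⊔ Subgroup.zpowers σ)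
    obtain ⟨K', _, _, _, _⟩ := exists_fix F' Q
    obtain ⟨k', _, _, _, _⟩ := exists_fix F' ↥(Q ⊔ Subgroup.zpowers σ)
    obtain ⟨a, ha⟩ := exists_lift (G := Q) (K := K) (algebraMap k F) fun s x =>
      smul_alg (Subgroup.inclusion (le_sup_left (b := Subgroup.zpowers σ)) s) x
    obtain ⟨a', ha'⟩ := exists_lift (G := Q) (K := K') (algebraMap k' F') fun s x =>
      smul_alg (Subgroup.inclusion (le_sup_left (b := Subgroup.zpowers σ)) s) x
    obtain ⟨b, hb⟩ := exists_lift (G := Q) (K := K') ((algebraMap F F').comp (algebraMap K F))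
      fun s x => (he s _).symm.trans (congrArg _ (smul_alg s x))
    obtain ⟨b', hb'⟩ := exists_lift (G := ↥(Q ⊔ Subgroup.zpowers σ)) (K := k')
      ((algebraMap F F').comp (algebraMap k F))
      fun s x => (he s _).symm.trans (congrArg _ (smul_alg s x))
    let _ := a.toAlgebra
    let _ := a'.toAlgebra
    let _ := b.toAlgebra
    let _ := b'.toAlgebra
    let _ := (b.comp a).toAlgebra
    let _ := ((algebraMap F F').comp (algebraMap k F)).toAlgebra
    let _ := ((algebraMap F F').comp (algebraMap K F)).toAlgebra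
    have : IsScalarTower k K F := .of_algebraMap_eq fun x => (ha x).symm
    have : IsScalarTower k' K' F' := .of_algebraMap_eq fun x => (ha' x).symm
    have : IsScalarTower k K K' := .of_algebraMap_eq fun x => rfl
    have : IsScalarTower k k' K' := .of_algebraMap_eq fun x => (algebraMap K' F').injective
      ((hb (a x)).trans ((congrArg _ (ha x)).trans ((hb' x).symm.trans (ha' _).symm)))
    have : IsScalarTower k F F' := .of_algebraMap_eq fun x => rfl
    have : IsScalarTower k k' F' := .of_algebraMap_eq fun x => (hb' x).symm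
    have : IsScalarTower K F F' := .of_algebraMap_eq fun x => rfl
    have : IsScalarTower K K' F' := .of_algebraMap_eq fun x => (hb x).symm
    exact layer Q σ k K F k' K' F' h1 h2 hS hp hn hσ hσ' he hi hl hθ hr hg h0 hd hirr hα hco
  · simp only [hc.1 s hs x hx y hy, map_add]
  · simp only [hc.2 s hs t ht y hy, map_add, hI]
  · ext w
    rw [dv_apply, h2.ord_inc]
    exact mul_eq_zero_of_right _ (DFunLike.congr_fun (hc0 s y) (w.und F))
  · rw [← hβ.2 s hs y hy, one_smul]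
    exact Un.ext (by simp [Algebra.norm_algebraMap])

end Pool.Agent.MP_db5b97_nt.H76
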