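import Pool.Agent.MP_db5b97_nt.H31.SpecG

/-! The large primitive component of a transitive action. -/

namespace Pool.Agent.MP_db5b97_nt.H76

open MulAction Pool.Agent.MP_db5b97_nt.H31

theorem fix_of_lt {Z : Type} [Finite Z] (f : Z → Z) {p : ℕ} (hp : p.Prime) (h : Nat.card Z < p)
    (z : Z) (hz : f^[p] z = z) : f z = z := by
  classical
  have := Fintype.ofFinite Z
  have h1 : Function.minimalPeriod f z ∣ p := Function.IsPeriodicPt.minimalPeriod_dvd hz
  have h2 : Function.minimalPeriod f z ≤ Fintype.card Z := Function.minimalPeriod_le_card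
  rw [Nat.card_eq_fintype_card] at h
  rcases (Nat.dvd_prime hp).1 h1 with h3 | h3
  · exact Function.minimalPeriod_eq_one_iff_isFixedPt.1 h3
  · omega

theorem fix_sub {G X : Type} [Group G] [MulAction G X] [Finite X] (P : X → Prop) (g : G)
    (hP : ∀ x, P x → P (g • x)) {p : ℕ} (hp : p.Prime) (h : Nat.card {x // P x} < p) (x : X)
    (hx : P x) (hg : g ^ p • x = x) : g • x = x := by
  let f : {x // P x} → {x // P x} := fun a => ⟨g • a.1, hP _ a.2⟩
  have hit : ∀ n : ℕ, ∀ a : {x // P x}, (f^[n] a).1 = g ^ n • a.1 := by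
    intro n
    induction n with
    | zero => intro a; simp
    | succ n ih =>
      intro a
      rw [Function.iterate_succ_apply', pow_succ', mul_smul, ← ih a]
  have := fix_of_lt f hp h ⟨x, hx⟩ (Subtype.ext (by rw [hit]; exact hg))
  exact congrArg Subtype.val this

theorem fib_card {G A B : Type} [Group G] [MulAction G A] [MulAction G B] [IsPretransitive G B]
    (f : A →[G] B) (b b' : B) : Nat.card {a // f a = b} = Nat.card {a // f a = b'} := by
  obtain ⟨g, rfl⟩ := exists_smul_eq G b b'
  refine Nat.card_congr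
    { toFun := fun a => ⟨g • a.1, by rw [map_smul, a.2]⟩
      invFun := fun a => ⟨g⁻¹ • a.1, by rw [map_smul, a.2, inv_smul_smul]⟩
      left_inv := fun a => Subtype.ext (inv_smul_smul g a.1)
      right_inv := fun a => Subtype.ext (smul_inv_smul g a.1) }

theorem card_eq_mul {G A B : Type} [Group G] [MulAction G A] [MulAction G B] [IsPretransitive G B]
    [Finite A] [Finite B] (f : A →[G] B) (b : B) :
    Nat.card A = Nat.card B * Nat.card {a // f a = b} := by
  classical
  have := Fintype.ofFinite B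
  rw [← Nat.card_congr (Equiv.sigmaFiberEquiv f), Nat.card_sigma,
    Finset.sum_congr rfl fun b' _ => fib_card f b' b]
  simp

/-- the map between transitive sets given by an inclusion of stabilisers -/
theorem exists_beta {G X Y : Type} [Group G] [MulAction G X] [IsPretransitive G X]
    [MulAction G Y] (x0 : X) (y0 : Y) (hH : stabilizer G x0 ≤ stabilizer G y0) :
    ∃ β : X →[G] Y, β x0 = y0 := by
  choose c hc using fun x : X => exists_smul_eq G x0 x
  have key : ∀ (x : X) (g : G), g • x0 = x → c x • y0 = g • y0 := by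
    intro x g hg
    have : g⁻¹ * c x ∈ stabilizer G y0 := by
      apply hH
      rw [mem_stabilizer_iff, mul_smul, hc, inv_smul_eq_iff, hg]
    rwa [mem_stabilizer_iff, mul_smul, inv_smul_eq_iff] at this
  refine ⟨⟨fun x => c x • y0, fun g x => ?_⟩, (key x0 1 (one_smul G x0)).trans (one_smul G y0)⟩
  show c (g • x) • y0 = g • c x • y0
  rw [key (g • x) (g * c x) (by rw [mul_smul, hc]), mul_smul]

theorem exists_space {G : Type} [Group G] [Finite G] (H : Subgroup G) :
    ∃ (Y : Type) (_ : MulAction G Y) (_ : Finite Y) (y0 : Y),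
      IsPretransitive G Y ∧ stabilizer G y0 = H ∧ Nat.card Y = H.index :=
  ⟨G ⧸ H, inferInstance, inferInstance, ((1 : G) : G ⧸ H), inferInstance,
    stabilizer_quotient H, rfl⟩

theorem surj_of {G A B : Type} [Group G] [MulAction G A] [MulAction G B] [IsPretransitive G B]
    (f : A →[G] B) (a : A) : Function.Surjective f := by
  intro b
  obtain ⟨g, rfl⟩ := exists_smul_eq G (f a) b
  exact ⟨g • a, map_smul f g a⟩

theorem rowLAY : RowLAY := by
  intro G X _ _ _ _ y htr hy hyX hXy
  have hne : Nonempty X := by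
    by_contra h
    rw [not_nonempty_iff] at h
    rw [Nat.card_of_isEmpty] at hyX
    omega
  obtain ⟨x0⟩ := hne
  set S := stabilizer G x0 with hS
  have hSi : S.index = Nat.card X := index_stabilizer_of_transitive G x0
  obtain ⟨H2, ⟨hS2, hy2⟩, hmin⟩ := WellFounded.has_min (wellFounded_lt (α := Subgroup G))
    {H | S ≤ H ∧ y ≤ S.relIndex H} ⟨⊤, le_top, by rw [Subgroup.relIndex_top_right, hSi]; exact hyX⟩
  have hlt : S < H2 := by
    refine lt_of_le_of_ne hS2 fun h => ?_
    rw [← h, Subgroup.relIndex_self] at hy2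
    omega
  obtain ⟨H1, ⟨hS1, h12⟩, hmax⟩ := WellFounded.has_min (wellFounded_gt (α := Subgroup G))
    {H | S ≤ H ∧ H < H2} ⟨S, le_rfl, hlt⟩
  have hs : S.relIndex H1 < y := by
    by_contra h
    exact hmin H1 ⟨hS1, not_lt.1 h⟩ h12
  have hmax' : ∀ L : Subgroup G, H1 < L → L ≤ H2 → L = H2 := by
    intro L h1 h2
    by_contra h
    exact hmax L ⟨hS1.trans h1.le, lt_of_le_of_ne h2 h⟩ h1
  obtain ⟨Y, iY, fY, y0, tY, hK1, i1⟩ := exists_space H1
  obtain ⟨W, iW, fW, w, tW, hK, i2⟩ := exists_space H2
  obtain ⟨β, hβ⟩ := exists_beta x0 y0 (hK1.symm ▸ hS1)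
  obtain ⟨ω, hω⟩ := exists_beta (G := G) y0 w (by rw [hK1, hK]; exact h12.le)
  have sb : Function.Surjective β := surj_of β x0
  have so : Function.Surjective ω := surj_of ω (β x0)
  have c1 := card_eq_mul β (β x0)
  have c2 := card_eq_mul ω w
  have p1 : 0 < H1.index := Nat.pos_of_ne_zero Subgroup.index_ne_zero_of_finite
  have p2 : 0 < H2.index := Nat.pos_of_ne_zero Subgroup.index_ne_zero_of_finite
  have e1 : Nat.card {x // β x = β x0} = S.relIndex H1 := by
    have := Subgroup.relIndex_mul_index hS1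
    rw [hSi, c1, i1, mul_comm] at this
    exact (Nat.eq_of_mul_eq_mul_left p1 this).symm
  have e2 : Nat.card {b // ω b = w} = H1.relIndex H2 := by
    have := Subgroup.relIndex_mul_index h12.le
    rw [← i1, c2, i2, mul_comm] at this
    exact (Nat.eq_of_mul_eq_mul_left p2 this).symm
  have ht : H2.index < y := by
    have := Subgroup.relIndex_mul_index hS2
    rw [hSi] at this
    by_contra h
    have h3 : y * y ≤ S.relIndex H2 * H2.index := Nat.mul_le_mul hy2 (not_lt.1 h)
    nlinarith
  have hm : 2 ≤ H1.relIndex H2 := by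
    have h0 : H1.relIndex H2 ≠ 0 := by
      intro h
      have := Subgroup.relIndex_mul_index h12.le
      rw [h] at this
      omega
    have h1 : H1.relIndex H2 ≠ 1 := fun h =>
      (not_le_of_gt h12) (Subgroup.relIndex_eq_one.1 h)
    omega
  let a : fib ω w := ⟨y0, hω⟩
  have hkc : KC (stabilizer G w).subtype X (fib ω w) := by
    intro h hh b
    obtain ⟨x, hx⟩ := sb b.1
    apply Subtype.ext
    show (h : G) • b.1 = b.1
    have h3 : (h : G) • x = x := hh x
    rw [← hx, ← map_smul, h3]
  refine ⟨Y, W, iY, iW, fY, β, ω, S.relIndex H1,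
    H1.relIndex H2, H2.index, w, ⟨sb, so, fun b => (fib_card β b (β x0)).trans e1,
      fun b => (fib_card ω b w).trans e2, i2, ?_⟩, hs, ht, hm, ?_, ?_, hkc, ?_⟩
  · rw [c1, c2, e1, e2, i2]
  · have htr' : IsPretransitive (stabilizer G w) (fib ω w) := by
      have key : ∀ b : fib ω w, ∃ k : stabilizer G w, k • a = b := by
        intro b
        obtain ⟨g, hg⟩ := exists_smul_eq G y0 b.1
        have hb : ω b.1 = w := b.2
        refine ⟨⟨g, ?_⟩, Subtype.ext hg⟩
        rw [mem_stabilizer_iff]
        rw [← hg, map_smul, hω] at hb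
        exact hb
      refine ⟨fun b b' => ?_⟩
      obtain ⟨k, rfl⟩ := key b
      obtain ⟨k', rfl⟩ := key b'
      exact ⟨k' * k⁻¹, by rw [mul_smul, inv_smul_smul]⟩
    have hnt : Nontrivial (fib ω w) := by
      have : Nat.card (fib ω w) = H1.relIndex H2 := e2
      exact Finite.one_lt_card_iff_nontrivial.1 (by omega)
    have hst : ∀ k : stabilizer G w, k ∈ stabilizer (stabilizer G w) a ↔ (k : G) ∈ H1 := by
      intro k
      rw [mem_stabilizer_iff, Subtype.ext_iff, ← hK1, mem_stabilizer_iff]
      rfl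
    refine (isCoatom_stabilizer_iff_preprimitive (stabilizer G w) a).1 ⟨fun h => ?_, fun L hL => ?_⟩
    · apply not_le_of_gt h12
      intro g hg
      exact (hst ⟨g, hK.symm ▸ hg⟩).1 (h ▸ Subgroup.mem_top _)
    · have h3 : L.map (stabilizer G w).subtype = H2 := by
        apply hmax'
        · refine lt_of_le_of_ne (fun g hg => ?_) fun h => ?_
          · exact ⟨⟨g, hK.symm ▸ h12.le hg⟩, hL.le ((hst _).2 hg), rfl⟩
          · apply not_le_of_gt hL
            intro k hk
            rw [hst, h]
            exact ⟨k, hk, rfl⟩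
        · rintro g ⟨k, -, rfl⟩
          exact hK ▸ k.2
      rw [eq_top_iff]
      intro k _
      have h4 : (k : G) ∈ L.map (stabilizer G w).subtype := h3.symm ▸ (hK ▸ k.2)
      obtain ⟨k', hk', h5⟩ := h4
      exact (Subtype.ext h5 : k' = k) ▸ hk'
  · intro h1 h2
    have h3 : H1 = S := le_antisymm (Subgroup.relIndex_eq_one.1 h1) hS1
    have h4 : H2 = ⊤ := Subgroup.index_eq_one.1 h2
    have hnt : Nontrivial X := Finite.one_lt_card_iff_nontrivial.1 (by omega)
    refine (isCoatom_stabilizer_iff_preprimitive G x0).1 ⟨fun h => ?_, fun L hL => ?_⟩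
    · exact hlt.ne (h.trans h4.symm)
    · rw [← h4]
      exact hmax' L (h3 ▸ hL) (h4 ▸ le_top)
  · rintro p hp hyp ⟨g, ⟨x, hx⟩, hg⟩
    obtain ⟨k, rfl⟩ := exists_smul_eq G x0 x
    have hg' : ∀ z : X, (k⁻¹ * g * k) ^ p • z = z := by
      intro z
      have : (k⁻¹ * g * k) ^ p = k⁻¹ * g ^ p * k := by
        simpa using (conj_pow (a := k⁻¹) (b := g) (i := p))
      rw [this, mul_smul, mul_smul, hg, inv_smul_smul]
    have hx' : (k⁻¹ * g * k) • x0 ≠ x0 := by
      intro h
      apply hx
      rwa [mul_smul, mul_smul, inv_smul_eq_iff] at h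
    generalize k⁻¹ * g * k = u at hg' hx'
    have hw' : u • w = w := by
      refine fix_of_lt (fun z : W => u • z) hp (by rw [i2]; omega) w ?_
      rw [smul_iterate]
      show u ^ p • w = w
      rw [← hω, ← hβ, ← map_smul, ← map_smul, hg']
    refine ⟨⟨u, hw'⟩, ⟨a, fun h => hx' ?_⟩, fun b => hkc _ (fun z => hg' z) b⟩
    have h3 : u • β x0 = β x0 := by
      rw [hβ]
      exact congrArg Subtype.val h
    refine fix_sub (fun z => β z = β x0) u (fun z hz => ?_) hp (by rw [e1]; omega) x0 rfl (hg' x0)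
    show β (u • z) = β x0
    rw [map_smul, hz, h3]

end Pool.Agent.MP_db5b97_nt.H76
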